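import Mathlib

/-!
# Isometries of hyperbolic quadratic forms over a group ring: definitions

`K` is a commutative ring of characteristic two, `G` a group, `A = K[G]` with the involution
`∑ a_g g ↦ ∑ a_g g⁻¹`. For a finite set `κ` the hyperbolic quadratic form on `A^κ ⊕ A^κ` is given
by the matrix `hyp = (0 1; 0 0)`.
-/

namespace Pool.Agent.Lib.MP8a3537.D1

open Matrix MonoidAlgebra

variable {K G : Type*} [CommRing K] [Group G]

/-- The involution `∑ a_g g ↦ ∑ a_g g⁻¹` of `K[G]`. -/
noncomputable def conj (x : MonoidAlgebra K G) : MonoidAlgebra K G :=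
  x.coeff.sum fun g a => MonoidAlgebra.single g⁻¹ a

/-- The conjugate transpose of a matrix over `K[G]`. -/
noncomputable def dual {m n : Type*} (x : Matrix m n (MonoidAlgebra K G)) :
    Matrix n m (MonoidAlgebra K G) :=
  (x.map conj)ᵀ

lemma conj_zero : conj (0 : MonoidAlgebra K G) = 0 := by simp [conj]

lemma conj_add (x y : MonoidAlgebra K G) : conj (x + y) = conj x + conj y := by
  unfold conj
  rw [MonoidAlgebra.coeff_add, Finsupp.sum_add_index']
  · intro g; simp
  · intro g r s; simp

lemma conj_single (g : G) (r : K) :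
    conj (MonoidAlgebra.single g r) = MonoidAlgebra.single g⁻¹ r := by
  unfold conj
  rw [MonoidAlgebra.coeff_single, Finsupp.sum_single_index]
  simp

lemma conj_one : conj (1 : MonoidAlgebra K G) = 1 := by
  rw [MonoidAlgebra.one_def, conj_single, inv_one]

lemma conj_mul (x y : MonoidAlgebra K G) : conj (x * y) = conj y * conj x := by
  induction x using MonoidAlgebra.induction_linear with
  | zero => simp [conj_zero]
  | add x x' hx hx' => rw [add_mul, conj_add, conj_add, hx, hx', mul_add]
  | single g r =>
    induction y using MonoidAlgebra.induction_linear with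
    | zero => simp [conj_zero]
    | add y y' hy hy' => rw [mul_add, conj_add, conj_add, hy, hy', add_mul]
    | single h s =>
      rw [MonoidAlgebra.single_mul_single, conj_single, conj_single, conj_single,
        MonoidAlgebra.single_mul_single, _root_.mul_inv_rev, mul_comm r s]

lemma conj_conj (x : MonoidAlgebra K G) : conj (conj x) = x := by
  induction x using MonoidAlgebra.induction_linear with
  | zero => simp [conj_zero]
  | add x x' hx hx' => rw [conj_add, conj_add, hx, hx']
  | single g r => rw [conj_single, conj_single, inv_inv]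

/-- the involution as an additive map -/
noncomputable def conjHom : MonoidAlgebra K G →+ MonoidAlgebra K G where
  toFun := conj
  map_zero' := conj_zero
  map_add' := conj_add

lemma conj_sum {ι : Type*} (s : Finset ι) (f : ι → MonoidAlgebra K G) :
    conj (∑ i ∈ s, f i) = ∑ i ∈ s, conj (f i) := map_sum (conjHom (K := K) (G := G)) f s

lemma dual_add {m n : Type*} (x y : Matrix m n (MonoidAlgebra K G)) :
    dual (x + y) = dual x + dual y := by
  ext1 i j
  simp [dual, conj_add]

lemma dual_zero {m n : Type*} : dual (0 : Matrix m n (MonoidAlgebra K G)) = 0 := by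
  ext1 i j
  simp [dual, conj_zero]

lemma dual_dual {m n : Type*} (x : Matrix m n (MonoidAlgebra K G)) : dual (dual x) = x := by
  ext1 i j
  simp [dual, conj_conj]

lemma dual_mul {m n l : Type*} [Fintype n] (x : Matrix m n (MonoidAlgebra K G))
    (y : Matrix n l (MonoidAlgebra K G)) : dual (x * y) = dual y * dual x := by
  ext1 i j
  simp only [dual, Matrix.transpose_apply, Matrix.map_apply, Matrix.mul_apply, conj_sum, conj_mul]

lemma dual_one {m : Type*} [DecidableEq m] : dual (1 : Matrix m m (MonoidAlgebra K G)) = 1 := by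
  ext1 i j
  simp only [dual, Matrix.transpose_apply, Matrix.map_apply]
  by_cases h : i = j
  · subst h; rw [Matrix.one_apply_eq, conj_one]
  · rw [Matrix.one_apply_ne h, Matrix.one_apply_ne (Ne.symm h), conj_zero]

lemma dual_fromBlocks {m n o p : Type*} (a : Matrix m n (MonoidAlgebra K G))
    (b : Matrix m p (MonoidAlgebra K G)) (c : Matrix o n (MonoidAlgebra K G))
    (d : Matrix o p (MonoidAlgebra K G)) :
    dual (Matrix.fromBlocks a b c d) = Matrix.fromBlocks (dual a) (dual c) (dual b) (dual d) := by
  unfold dual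
  rw [Matrix.fromBlocks_map, Matrix.fromBlocks_transpose]

variable (K G)

/-- The matrix `(0 1; 0 0)` of the hyperbolic quadratic form. -/
noncomputable def hyp (κ : Type*) [DecidableEq κ] : Matrix (κ ⊕ κ) (κ ⊕ κ) (MonoidAlgebra K G) :=
  Matrix.fromBlocks 0 1 0 0

/-- The group of isometries of the hyperbolic quadratic form on `A^κ ⊕ A^κ`: the invertible
matrices `u` with `u^* hyp u = hyp + η + η^*` for some matrix `η`. -/
noncomputable def Isom (κ : Type*) [Fintype κ] [DecidableEq κ] :
    Subgroup (Matrix (κ ⊕ κ) (κ ⊕ κ) (MonoidAlgebra K G))ˣ where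
  carrier := {u | ∃ η, dual u.val * hyp K G κ * u.val = hyp K G κ + η + dual η}
  one_mem' := ⟨0, by rw [dual_zero, Units.val_one, dual_one]; simp⟩
  mul_mem' := by
    rintro u v ⟨η, hη⟩ ⟨θ, hθ⟩
    refine ⟨θ + dual v.val * η * v.val, ?_⟩
    have h : dual (u * v).val * hyp K G κ * (u * v).val
        = dual v.val * (dual u.val * hyp K G κ * u.val) * v.val := by
      rw [Units.val_mul, dual_mul]; simp only [Matrix.mul_assoc]
    rw [h, hη, Matrix.mul_add, Matrix.mul_add, Matrix.add_mul, Matrix.add_mul, hθ, dual_add,
      dual_mul, dual_mul, dual_dual, ← Matrix.mul_assoc]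
    abel
  inv_mem' := by
    rintro u ⟨η, hη⟩
    refine ⟨-(dual u⁻¹.val * η * u⁻¹.val), ?_⟩
    have hneg : ∀ x : Matrix (κ ⊕ κ) (κ ⊕ κ) (MonoidAlgebra K G), dual (-x) = -dual x := by
      intro x
      have : dual (-x) + dual x = 0 := by rw [← dual_add, neg_add_cancel, dual_zero]
      exact eq_neg_of_add_eq_zero_left this
    have h1 : hyp K G κ = dual u⁻¹.val * (dual u.val * hyp K G κ * u.val) * u⁻¹.val := by
      have e1 : dual u⁻¹.val * dual u.val = 1 := by
        rw [← dual_mul, Units.mul_inv, dual_one]
      have e2 : u.val * u⁻¹.val = 1 := Units.mul_inv u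
      calc hyp K G κ = (dual u⁻¹.val * dual u.val) * hyp K G κ * (u.val * u⁻¹.val) := by
            rw [e1, e2, Matrix.one_mul, Matrix.mul_one]
        _ = _ := by simp only [Matrix.mul_assoc]
    have h2 : hyp K G κ = dual u⁻¹.val * hyp K G κ * u⁻¹.val
        + (dual u⁻¹.val * η * u⁻¹.val + dual (dual u⁻¹.val * η * u⁻¹.val)) := by
      conv_lhs => rw [h1, hη]
      rw [Matrix.mul_add, Matrix.mul_add, Matrix.add_mul, Matrix.add_mul, dual_mul, dual_mul,
        dual_dual, ← Matrix.mul_assoc, add_assoc]
    rw [hneg]
    have h3 : ∀ a b c d : Matrix (κ ⊕ κ) (κ ⊕ κ) (MonoidAlgebra K G),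
        a = b + (c + d) → b = a + -c + -d := by
      intro a b c d h; rw [h]; abel
    exact h3 _ _ _ _ h2

end Pool.Agent.Lib.MP8a3537.D1
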