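import Pool.Agent.Lib.MP_8a3537_gt.D1.Mat

/-!
# The invariant on the isometry groups
-/

namespace Pool.Agent.Lib.MP8a3537.D1

open Matrix MonoidAlgebra

set_option linter.unusedSectionVars false

variable {K G : Type*} [CommRing K] [Group G]
variable {κ : Type*} [Fintype κ] [DecidableEq κ]

variable (K G κ) in
/-- the matrix `(0 1; 1 0)` -/
noncomputable def Jm : Matrix (κ ⊕ κ) (κ ⊕ κ) (MonoidAlgebra K G) := Matrix.fromBlocks 0 1 1 0

variable (K G κ) in
/-- the matrix `(0 0; 0 1)` -/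
noncomputable def Em : Matrix (κ ⊕ κ) (κ ⊕ κ) (MonoidAlgebra K G) := Matrix.fromBlocks 0 0 0 1

lemma Jm_mul_Jm : Jm K G κ * Jm K G κ = 1 := by
  unfold Jm
  rw [Matrix.fromBlocks_multiply]
  simp [Matrix.fromBlocks_one]

lemma dual_Jm : dual (Jm K G κ) = Jm K G κ := by
  unfold Jm
  rw [dual_fromBlocks, dual_zero, dual_one]

lemma dual_Em : dual (Em K G κ) = Em K G κ := by
  unfold Em
  rw [dual_fromBlocks, dual_zero, dual_one]

lemma Jm_mul_Em : Jm K G κ * Em K G κ = hyp K G κ := by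
  unfold Jm Em hyp
  rw [Matrix.fromBlocks_multiply]
  simp

lemma Jm_mul_hyp : Jm K G κ * hyp K G κ = Em K G κ := by
  rw [← Jm_mul_Em, ← Matrix.mul_assoc, Jm_mul_Jm, Matrix.one_mul]

lemma Jm_fromBlocks (a b c d : Matrix κ κ (MonoidAlgebra K G)) :
    Jm K G κ * Matrix.fromBlocks a b c d = Matrix.fromBlocks c d a b := by
  unfold Jm
  rw [Matrix.fromBlocks_multiply]
  simp

lemma fromBlocks_Jm (a b c d : Matrix κ κ (MonoidAlgebra K G)) :
    Matrix.fromBlocks a b c d * Jm K G κ = Matrix.fromBlocks b a d c := by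
  unfold Jm
  rw [Matrix.fromBlocks_multiply]
  simp

lemma Em_fromBlocks (a b c d : Matrix κ κ (MonoidAlgebra K G)) :
    Em K G κ * Matrix.fromBlocks a b c d = Matrix.fromBlocks 0 0 c d := by
  unfold Em
  rw [Matrix.fromBlocks_multiply]
  simp

/-- the adjoint with respect to the hyperbolic form -/
noncomputable def dgm (x : Matrix (κ ⊕ κ) (κ ⊕ κ) (MonoidAlgebra K G)) :
    Matrix (κ ⊕ κ) (κ ⊕ κ) (MonoidAlgebra K G) :=
  Jm K G κ * dual x * Jm K G κ

lemma dgm_fromBlocks (a b c d : Matrix κ κ (MonoidAlgebra K G)) :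
    dgm (Matrix.fromBlocks a b c d) = Matrix.fromBlocks (dual d) (dual b) (dual c) (dual a) := by
  rw [dgm, dual_fromBlocks, Jm_fromBlocks, fromBlocks_Jm]

lemma dgm_mul (x y : Matrix (κ ⊕ κ) (κ ⊕ κ) (MonoidAlgebra K G)) :
    dgm (x * y) = dgm y * dgm x := by
  unfold dgm
  rw [dual_mul]
  calc Jm K G κ * (dual y * dual x) * Jm K G κ
      = Jm K G κ * dual y * (1 * (dual x * Jm K G κ)) := by
        rw [Matrix.one_mul]; simp only [Matrix.mul_assoc]
    _ = _ := by rw [← Jm_mul_Jm]; simp only [Matrix.mul_assoc]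

lemma dgm_dgm (x : Matrix (κ ⊕ κ) (κ ⊕ κ) (MonoidAlgebra K G)) : dgm (dgm x) = x := by
  unfold dgm
  rw [dual_mul, dual_mul, dual_dual, dual_Jm]
  calc Jm K G κ * (Jm K G κ * (x * Jm K G κ)) * Jm K G κ
      = (Jm K G κ * Jm K G κ) * x * (Jm K G κ * Jm K G κ) := by simp only [Matrix.mul_assoc]
    _ = x := by rw [Jm_mul_Jm, Matrix.one_mul, Matrix.mul_one]

lemma fromBlocks_toBlocks' {α β γ ε R : Type*} (x : Matrix (α ⊕ β) (γ ⊕ ε) R) :
    ∃ a b c d, x = Matrix.fromBlocks a b c d :=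
  ⟨_, _, _, _, (Matrix.fromBlocks_toBlocks x).symm⟩

lemma Rm_fromBlocks {α β γ ε : Type*} (P : Set G)
    (a : Matrix α γ (MonoidAlgebra K G)) (b : Matrix α ε (MonoidAlgebra K G))
    (c : Matrix β γ (MonoidAlgebra K G)) (d : Matrix β ε (MonoidAlgebra K G)) :
    Rm P (Matrix.fromBlocks a b c d)
      = Matrix.fromBlocks (Rm P a) (Rm P b) (Rm P c) (Rm P d) := by
  ext1 i j
  rcases i with i | i <;> rcases j with j | j <;> rfl

lemma Dm_fromBlocks {α β γ ε : Type*} (δ : G →* Multiplicative (ZMod 2))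
    (a : Matrix α γ (MonoidAlgebra K G)) (b : Matrix α ε (MonoidAlgebra K G))
    (c : Matrix β γ (MonoidAlgebra K G)) (d : Matrix β ε (MonoidAlgebra K G)) :
    Dm δ (Matrix.fromBlocks a b c d)
      = Matrix.fromBlocks (Dm δ a) (Dm δ b) (Dm δ c) (Dm δ d) :=
  Rm_fromBlocks _ a b c d

lemma Rm_one {α : Type*} [Fintype α] [DecidableEq α] (P : Set G) (h : (1 : G) ∉ P) :
    Rm P (1 : Matrix α α (MonoidAlgebra K G)) = 0 := by
  classical
  ext1 i j
  rw [Rm_apply]
  by_cases hij : i = j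
  · subst hij
    rw [Matrix.one_apply_eq, MonoidAlgebra.one_def, restr_single, if_neg h]; rfl
  · rw [Matrix.one_apply_ne hij, map_zero]; rfl

lemma one_notMem_odd (δ : G →* Multiplicative (ZMod 2)) : (1 : G) ∉ odd δ := by simp [odd]

lemma Dm_Em (δ : G →* Multiplicative (ZMod 2)) : Dm δ (Em K G κ) = 0 := by
  unfold Em
  rw [Dm_fromBlocks, map_zero]
  change Matrix.fromBlocks 0 0 0 (Rm (odd δ) 1) = 0
  rw [Rm_one _ (one_notMem_odd δ), Matrix.fromBlocks_zero]

lemma Dm_Jm (δ : G →* Multiplicative (ZMod 2)) : Dm δ (Jm K G κ) = 0 := by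
  unfold Jm
  rw [Dm_fromBlocks, map_zero]
  change Matrix.fromBlocks 0 (Rm (odd δ) 1) (Rm (odd δ) 1) 0 = 0
  rw [Rm_one _ (one_notMem_odd δ), Matrix.fromBlocks_zero]

lemma trace_blocks {α β R : Type*} [Fintype α] [Fintype β] [AddCommMonoid R] (a : Matrix α α R)
    (b : Matrix α β R) (c : Matrix β α R) (d : Matrix β β R) :
    (Matrix.fromBlocks a b c d).trace = a.trace + d.trace := by
  simp [Matrix.trace, Fintype.sum_sum_type]

lemma Qm_J {P : Set G} (x : Matrix (κ ⊕ κ) (κ ⊕ κ) (MonoidAlgebra K G)) :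
    Qm P (Jm K G κ * x * Jm K G κ) = Qm P x := by
  obtain ⟨a, b, c, d, rfl⟩ := fromBlocks_toBlocks' x
  unfold Qm
  rw [Jm_fromBlocks, fromBlocks_Jm, Rm_fromBlocks, Rm_fromBlocks, Matrix.fromBlocks_multiply,
    Matrix.fromBlocks_multiply, trace_blocks, trace_blocks]
  simp only [map_add, Matrix.trace_add]
  ring

section Char2

variable [CharP K 2]

lemma Em_add_dgm : Em K G κ + dgm (Em K G κ) = 1 := by
  unfold Em
  rw [dgm_fromBlocks, dual_one, dual_zero, Matrix.fromBlocks_add]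
  simp [Matrix.fromBlocks_one]

lemma Em_sq : Em K G κ * Em K G κ = Em K G κ := by
  nth_rw 2 [Em]
  rw [Em_fromBlocks]; rfl

/-- the class modulo `z ^ 2 + z` -/
def cls : K →+ AS K := QuotientAddGroup.mk' (wp K).range

lemma cls_wp (z : K) : cls (z * z + z) = 0 := by
  have : z * z + z = wp K z := rfl
  rw [this]
  exact (QuotientAddGroup.eq_zero_iff _).mpr ⟨z, rfl⟩

lemma two_AS (x : AS K) : x + x = 0 := by
  obtain ⟨y, rfl⟩ := QuotientAddGroup.mk'_surjective _ x
  rw [← map_add, CharTwo.add_self_eq_zero, map_zero]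

/-- The system on `M_{2n}(K[G])` belonging to `δ`. -/
noncomputable def sys (κ : Type*) [Fintype κ] [DecidableEq κ] {δ : G →* Multiplicative (ZMod 2)}
    {P : Set G} (hG : ∀ g : G, g * g = 1 → g = 1) (hP : Half δ P) :
    Sys (Matrix (κ ⊕ κ) (κ ⊕ κ) (MonoidAlgebra K G)) (AS K) where
  T := cls.comp (c1.comp (Matrix.traceAddMonoidHom (κ ⊕ κ) (MonoidAlgebra K G)))
  D := Dm δ
  dg := { toFun := dgm
          map_zero' := by simp [dgm, dual_zero]
          map_add' := fun x y => by simp [dgm, dual_add, Matrix.mul_add, Matrix.add_mul] }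
  Q x := cls (Qm P x)
  twoB := twoM
  twoV := two_AS
  T_comm x y := congrArg cls (tr_mul_comm x y)
  T_dg x := by
    refine congrArg cls ?_
    show c1 (dgm x).trace = c1 x.trace
    rw [dgm, tr_mul_comm, ← Matrix.mul_assoc, Jm_mul_Jm, Matrix.one_mul, tr_dual]
  dg_mul := dgm_mul
  dg_dg := dgm_dgm
  D_mul := Dm_mul δ
  D_dg x := by
    show Dm δ (dgm x) = dgm (Dm δ x)
    rw [dgm, dgm, Dm_mul, Dm_mul, Dm_Jm, Matrix.zero_mul, Matrix.mul_zero, zero_add, add_zero,
      Dm_dual]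
  T_D x := by
    show cls (c1 (Dm δ x).trace) = 0
    rw [tr_Dm, map_zero]
  Q_add x y := by
    show cls (Qm P (x + y)) = cls (Qm P x) + cls (Qm P y) + cls (c1 (Dm δ x * y).trace)
    rw [Qm_add δ hP, map_add, map_add]
  Q_dg x := by
    show cls (Qm P (dgm x)) = cls (Qm P x)
    rw [dgm, Qm_J, Qm_dual δ hG hP]
  Q_M u v := by
    show cls (Qm P (u * v)) + cls (Qm P (v * u))
      = cls (c1 (v * u * v * Dm δ u).trace) + cls (c1 (v * Dm δ u).trace)
    obtain ⟨z, hz⟩ := Qm_M δ hG hP u v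
    have h := congrArg cls hz
    rw [cls_wp, map_add, map_add, map_add] at h
    have h2 := two_AS (cls (c1 (v * u * v * Dm δ u).trace) + cls (c1 (v * Dm δ u).trace))
    exact add_right_cancel (h.trans h2.symm)
  E := Em K G κ
  E_dg := Em_add_dgm
  E_sq := Em_sq
  D_E := Dm_Em δ

variable {δ : G →* Multiplicative (ZMod 2)} {P : Set G}

/-- The isometry relation in terms of the adjoint. -/
lemma rel_of {u η : Matrix (κ ⊕ κ) (κ ⊕ κ) (MonoidAlgebra K G)}
    (h : dual u * hyp K G κ * u = hyp K G κ + η + dual η) :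
    dgm u * Em K G κ * u = Em K G κ + Jm K G κ * η + dgm (Jm K G κ * η) := by
  have h1 : dgm u * Em K G κ * u = Jm K G κ * (dual u * hyp K G κ * u) := by
    rw [dgm, Matrix.mul_assoc (Jm K G κ * dual u), Jm_mul_Em]
    simp only [Matrix.mul_assoc]
  have h2 : dgm (Jm K G κ * η) = Jm K G κ * dual η := by
    rw [dgm, dual_mul, dual_Jm, ← Matrix.mul_assoc, Matrix.mul_assoc, Jm_mul_Jm, Matrix.mul_one]
  rw [h1, h, Matrix.mul_add, Matrix.mul_add, Jm_mul_hyp, h2]

lemma hyp_add_dual : hyp K G κ + dual (hyp K G κ) = Jm K G κ := by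
  unfold hyp Jm
  rw [dual_fromBlocks, dual_zero, dual_one, Matrix.fromBlocks_add]
  simp

lemma dgm_mul_self {u η : Matrix (κ ⊕ κ) (κ ⊕ κ) (MonoidAlgebra K G)}
    (h : dual u * hyp K G κ * u = hyp K G κ + η + dual η) : dgm u * u = 1 := by
  have h1 : dual u * Jm K G κ * u = Jm K G κ := by
    have h2 : dual u * dual (hyp K G κ) * u = dual (hyp K G κ) + dual η + η := by
      have := congrArg dual h
      rw [dual_mul, dual_mul, dual_dual, dual_add, dual_add, dual_dual] at this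
      rw [Matrix.mul_assoc]; exact this
    rw [← hyp_add_dual, Matrix.mul_add, Matrix.add_mul, h, h2]
    have h3 := twoM η
    have h4 := twoM (dual η)
    calc hyp K G κ + η + dual η + (dual (hyp K G κ) + dual η + η)
        = hyp K G κ + dual (hyp K G κ) + ((η + η) + (dual η + dual η)) := by abel
      _ = _ := by rw [h3, h4, add_zero, add_zero]
  rw [dgm]
  calc Jm K G κ * dual u * Jm K G κ * u = Jm K G κ * (dual u * Jm K G κ * u) := by
        simp only [Matrix.mul_assoc]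
    _ = 1 := by rw [h1, Jm_mul_Jm]

open Classical in
/-- the invariant of an isometry -/
noncomputable def inv1 (hG : ∀ g : G, g * g = 1 → g = 1) (hP : Half δ P)
    (u : Matrix (κ ⊕ κ) (κ ⊕ κ) (MonoidAlgebra K G)) : AS K :=
  if h : ∃ η, dual u * hyp K G κ * u = hyp K G κ + η + dual η then
    (sys κ hG hP).kappa (Jm K G κ * h.choose) else 0

lemma inv1_eq (hG : ∀ g : G, g * g = 1 → g = 1) (hP : Half δ P)
    {u η : Matrix (κ ⊕ κ) (κ ⊕ κ) (MonoidAlgebra K G)}
    (h : dual u * hyp K G κ * u = hyp K G κ + η + dual η) :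
    inv1 hG hP u = (sys κ hG hP).kappa (Jm K G κ * η) := by
  have hex : ∃ η, dual u * hyp K G κ * u = hyp K G κ + η + dual η := ⟨η, h⟩
  unfold inv1
  rw [dif_pos hex]
  apply Sys.kappa_indep
  have h1 := rel_of hex.choose_spec
  have h2 := rel_of h
  rw [h2, add_assoc, add_assoc] at h1
  exact (add_left_cancel h1).symm

theorem inv1_mul (hG : ∀ g : G, g * g = 1 → g = 1) (hP : Half δ P) (u v : Isom K G κ) :
    inv1 hG hP (u * v).1.val = inv1 hG hP u.1.val + inv1 hG hP v.1.val := by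
  obtain ⟨u, η, hη⟩ := u
  obtain ⟨v, θ, hθ⟩ := v
  have hu1 : dgm u.val * u.val = 1 := dgm_mul_self hη
  have hv1 : dgm v.val * v.val = 1 := dgm_mul_self hθ
  have hu2 : u.val * dgm u.val = 1 := by
    have : dgm u.val = u⁻¹.val := by
      calc dgm u.val = dgm u.val * (u.val * u⁻¹.val) := by rw [Units.mul_inv, Matrix.mul_one]
        _ = u⁻¹.val := by rw [← Matrix.mul_assoc, hu1, Matrix.one_mul]
    rw [this, Units.mul_inv]
  have hv2 : v.val * dgm v.val = 1 := by
    have : dgm v.val = v⁻¹.val := by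
      calc dgm v.val = dgm v.val * (v.val * v⁻¹.val) := by rw [Units.mul_inv, Matrix.mul_one]
        _ = v⁻¹.val := by rw [← Matrix.mul_assoc, hv1, Matrix.one_mul]
    rw [this, Units.mul_inv]
  have hprod : dual (u.val * v.val) * hyp K G κ * (u.val * v.val)
      = hyp K G κ + (θ + dual v.val * η * v.val) + dual (θ + dual v.val * η * v.val) := by
    have h : dual (u.val * v.val) * hyp K G κ * (u.val * v.val)
        = dual v.val * (dual u.val * hyp K G κ * u.val) * v.val := by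
      rw [dual_mul]; simp only [Matrix.mul_assoc]
    rw [h, hη, Matrix.mul_add, Matrix.mul_add, Matrix.add_mul, Matrix.add_mul, hθ, dual_add,
      dual_mul, dual_mul, dual_dual, ← Matrix.mul_assoc]
    abel
  show inv1 hG hP (u.val * v.val) = inv1 hG hP u.val + inv1 hG hP v.val
  rw [inv1_eq hG hP hη, inv1_eq hG hP hθ, inv1_eq hG hP hprod]
  have hN : Jm K G κ * (θ + dual v.val * η * v.val)
      = Jm K G κ * θ + dgm v.val * (Jm K G κ * η) * v.val := by
    rw [Matrix.mul_add, dgm]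
    congr 1
    calc Jm K G κ * (dual v.val * η * v.val)
        = Jm K G κ * dual v.val * (1 * η) * v.val := by
          rw [Matrix.one_mul]; simp only [Matrix.mul_assoc]
      _ = _ := by rw [← Jm_mul_Jm]; simp only [Matrix.mul_assoc]
  rw [hN]
  exact (sys κ hG hP).kappa_mul u.val (dgm u.val) v.val (dgm v.val) _ _ hu1 hu2 rfl hv1 hv2 rfl
    (rel_of hη) (rel_of hθ)

/-- The invariant as a homomorphism. -/
noncomputable def e1 (κ : Type*) [Fintype κ] [DecidableEq κ] (hG : ∀ g : G, g * g = 1 → g = 1)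
    (hP : Half δ P) : Isom K G κ →* Multiplicative (AS K) :=
  MonoidHom.mk' (fun u => Multiplicative.ofAdd (inv1 hG hP u.1.val))
    (fun u v => by rw [inv1_mul, ofAdd_add])

end Char2

end Pool.Agent.Lib.MP8a3537.D1
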