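import Pool.Agent.Lib.MP_8a3537_gt.D1.Inst

/-!
# The system of a homomorphism `G → ℤ/2` on the matrices over `K[G]`
-/

namespace Pool.Agent.Lib.MP8a3537.D1

open Matrix MonoidAlgebra

set_option linter.unusedSectionVars false

/-- The map `z ↦ z ^ 2 + z` in characteristic two. -/
def wp (K : Type*) [CommRing K] [CharP K 2] : K →+ K where
  toFun z := z * z + z
  map_zero' := by simp
  map_add' a b := by
    have h2 : (2 : K) = 0 := CharP.cast_eq_zero K 2
    linear_combination (a * b) * h2

/-- The group `K / {z ^ 2 + z}`. -/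
abbrev AS (K : Type*) [CommRing K] [CharP K 2] := K ⧸ (wp K).range

variable {K G : Type*} [CommRing K] [Group G]
variable {α β γ : Type*} [Fintype α] [DecidableEq α] [Fintype β] [DecidableEq β]
  [Fintype γ] [DecidableEq γ]

/-- Induction for matrices over a group ring. -/
theorem indM {p : Matrix α β (MonoidAlgebra K G) → Prop} (h0 : p 0)
    (hadd : ∀ x y, p x → p y → p (x + y))
    (hs : ∀ i j g r, p (Matrix.single i j (MonoidAlgebra.single g r)))
    (x : Matrix α β (MonoidAlgebra K G)) : p x := by
  induction x using Matrix.induction_on' with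
  | h_zero => exact h0
  | h_add x y hx hy => exact hadd _ _ hx hy
  | h_std_basis i j x =>
    induction x using MonoidAlgebra.induction_linear with
    | zero => rw [Matrix.single_zero]; exact h0
    | add x y hx hy => rw [Matrix.single_add]; exact hadd _ _ hx hy
    | single g r => exact hs i j g r

lemma tr_mul (x : Matrix α β (MonoidAlgebra K G)) (y : Matrix β α (MonoidAlgebra K G)) :
    c1 (x * y).trace = ∑ i, ∑ j, c1 (x i j * y j i) := by
  simp only [Matrix.trace, Matrix.diag_apply, Matrix.mul_apply, map_sum]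

lemma tr_mul_comm (x : Matrix α β (MonoidAlgebra K G)) (y : Matrix β α (MonoidAlgebra K G)) :
    c1 (x * y).trace = c1 (y * x).trace := by
  rw [tr_mul, tr_mul, Finset.sum_comm]
  exact Finset.sum_congr rfl (fun i _ => Finset.sum_congr rfl (fun j _ => c1_mul_comm _ _))

lemma tr_rot (a b c d : Matrix α α (MonoidAlgebra K G)) :
    c1 (a * b * c * d).trace = c1 (b * c * d * a).trace := by
  rw [tr_mul_comm (b * c * d) a, Matrix.mul_assoc a, Matrix.mul_assoc a]

lemma tr_assoc (a b c d : Matrix α α (MonoidAlgebra K G)) :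
    c1 (a * b * (c * d)).trace = c1 (a * b * c * d).trace := by
  rw [← Matrix.mul_assoc]

lemma tr_dual (x : Matrix α α (MonoidAlgebra K G)) : c1 (dual x).trace = c1 x.trace := by
  simp only [Matrix.trace, Matrix.diag_apply, map_sum]
  exact Finset.sum_congr rfl (fun i _ => c1_conj _)

variable (δ : G →* Multiplicative (ZMod 2))

/-- the derivation on matrices -/
noncomputable def Dm : Matrix α β (MonoidAlgebra K G) →+ Matrix α β (MonoidAlgebra K G) :=
  AddMonoidHom.mapMatrix (der δ)

@[simp] lemma Dm_apply (x : Matrix α β (MonoidAlgebra K G)) (i : α) (j : β) :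
    Dm δ x i j = der δ (x i j) := rfl

/-- the restriction to a set of group elements -/
noncomputable def Rm (P : Set G) : Matrix α β (MonoidAlgebra K G) →+ Matrix α β (MonoidAlgebra K G) :=
  AddMonoidHom.mapMatrix (restr P)

@[simp] lemma Rm_apply (P : Set G) (x : Matrix α β (MonoidAlgebra K G)) (i : α) (j : β) :
    Rm P x i j = restr P (x i j) := rfl

lemma tr_Dm (x : Matrix α α (MonoidAlgebra K G)) : c1 (Dm δ x).trace = 0 := by
  simp only [Matrix.trace, Matrix.diag_apply, map_sum, Dm_apply, c1_der, Finset.sum_const_zero]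

lemma Dm_dual (x : Matrix α β (MonoidAlgebra K G)) : Dm δ (dual x) = dual (Dm δ x) := by
  ext1 i j
  exact conj_restr (odd δ) (odd_inv δ) (x j i)

section Char2

variable [CharP K 2]

lemma twoM (x : Matrix α β (MonoidAlgebra K G)) : x + x = 0 := by
  ext1 i j
  exact two_alg _

lemma Dm_mul (x : Matrix α β (MonoidAlgebra K G)) (y : Matrix β γ (MonoidAlgebra K G)) :
    Dm δ (x * y) = Dm δ x * y + x * Dm δ y := by
  ext1 i j
  simp only [Dm_apply, Matrix.mul_apply, Matrix.add_apply, map_sum, der_mul]
  rw [← Finset.sum_add_distrib]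

lemma tr_half {P : Set G} (hP : Half δ P) (x : Matrix α β (MonoidAlgebra K G))
    (y : Matrix β α (MonoidAlgebra K G)) :
    c1 (Rm P x * y).trace + c1 (Rm P y * x).trace = c1 (Dm δ x * y).trace := by
  rw [tr_mul, tr_mul, tr_mul, Finset.sum_comm (f := fun i j => c1 (Rm P y i j * x j i)),
    ← Finset.sum_add_distrib]
  refine Finset.sum_congr rfl (fun i _ => ?_)
  rw [← Finset.sum_add_distrib]
  exact Finset.sum_congr rfl (fun j _ => c1_half δ hP _ _)

lemma tr_D_comm (x : Matrix α β (MonoidAlgebra K G)) (y : Matrix β α (MonoidAlgebra K G)) :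
    c1 (Dm δ x * y).trace = c1 (x * Dm δ y).trace := by
  have h := tr_Dm δ (x * y)
  rw [Dm_mul, Matrix.trace_add, map_add] at h
  exact CharTwo.add_eq_zero.mp h

/-- value on matrices with one entry -/
lemma single_mul_single' (i j k l : α) (g h : G) (r s : K) :
    Matrix.single i j (MonoidAlgebra.single g r) * Matrix.single k l (MonoidAlgebra.single h s)
      = if j = k then Matrix.single i l (MonoidAlgebra.single (g * h) (r * s)) else 0 := by
  by_cases hjk : j = k
  · subst hjk
    rw [if_pos rfl, Matrix.single_mul_single_same, MonoidAlgebra.single_mul_single]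
  · rw [if_neg hjk, Matrix.single_mul_single_of_ne _ _ _ _ hjk]

open Classical in
lemma Rm_single (P : Set G) (i : α) (j : β) (g : G) (r : K) :
    Rm P (Matrix.single i j (MonoidAlgebra.single g r))
      = if g ∈ P then Matrix.single i j (MonoidAlgebra.single g r) else 0 := by
  ext1 k l
  rw [Rm_apply, Matrix.single_apply]
  by_cases h : i = k ∧ j = l
  · rw [if_pos h, restr_single]
    by_cases hg : g ∈ P
    · rw [if_pos hg, if_pos hg, Matrix.single_apply, if_pos h]
    · rw [if_neg hg, if_neg hg]; rfl
  · rw [if_neg h, map_zero]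
    by_cases hg : g ∈ P
    · rw [if_pos hg, Matrix.single_apply, if_neg h]
    · rw [if_neg hg]; rfl

lemma tr_single (i j : α) (x : MonoidAlgebra K G) :
    c1 (Matrix.single i j x).trace = if i = j then c1 x else 0 := by
  by_cases h : i = j
  · subst h; rw [Matrix.trace_single_eq_same, if_pos rfl]
  · rw [Matrix.trace_single_eq_of_ne _ _ _ h, map_zero, if_neg h]

lemma tr_R_self_single (hG : ∀ g : G, g * g = 1 → g = 1) (P : Set G) (h1 : (1 : G) ∉ P) (i j : α)
    (g : G) (r : K) :
    c1 (Rm P (Matrix.single i j (MonoidAlgebra.single g r))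
      * Matrix.single i j (MonoidAlgebra.single g r)).trace = 0 := by
  classical
  rw [Rm_single]
  by_cases hg : g ∈ P
  · rw [if_pos hg, single_mul_single']
    by_cases hij : j = i
    · rw [if_pos hij, tr_single, if_pos hij.symm, c1_single, if_neg]
      intro h; rw [hG g h] at hg; exact h1 hg
    · rw [if_neg hij, Matrix.trace_zero, map_zero]
  · rw [if_neg hg, Matrix.zero_mul, Matrix.trace_zero, map_zero]

lemma Dm_eq : Dm (α := α) (β := β) (K := K) δ = Rm (odd δ) := rfl

lemma tr_D_self (hG : ∀ g : G, g * g = 1 → g = 1) (x : Matrix α α (MonoidAlgebra K G)) :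
    c1 (Dm δ x * x).trace = 0 := by
  classical
  induction x using indM with
  | h0 => simp
  | hadd x y hx hy =>
    simp only [map_add, Matrix.add_mul, Matrix.mul_add, Matrix.trace_add]
    rw [hx, hy, tr_D_comm δ y x, tr_mul_comm y (Dm δ x), zero_add, add_zero]
    exact CharTwo.add_self_eq_zero _
  | hs i j g r =>
    rw [Dm_eq]
    exact tr_R_self_single hG _ (by simp [odd]) i j g r

/-- the half sum -/
noncomputable def Qm (P : Set G) (x : Matrix α α (MonoidAlgebra K G)) : K :=
  c1 (Rm P x * x).trace

lemma Qm_add {P : Set G} (hP : Half δ P) (x y : Matrix α α (MonoidAlgebra K G)) :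
    Qm P (x + y) = Qm P x + Qm P y + c1 (Dm δ x * y).trace := by
  unfold Qm
  rw [← tr_half δ hP]
  simp only [map_add, Matrix.add_mul, Matrix.mul_add, Matrix.trace_add]
  ring

lemma Qm_dual (hG : ∀ g : G, g * g = 1 → g = 1) {P : Set G} (hP : Half δ P)
    (x : Matrix α α (MonoidAlgebra K G)) : Qm P (dual x) = Qm P x := by
  -- the other half
  have hP' : ∀ z : MonoidAlgebra K G, restr P (conj z) = conj (restr {g | g⁻¹ ∈ P} z) := by
    classical
    intro z
    induction z using MonoidAlgebra.induction_linear with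
    | zero => simp [conj_zero]
    | add x x' hx hx' => rw [conj_add, map_add, map_add, conj_add, hx, hx']
    | single g r =>
      rw [conj_single, restr_single, restr_single]
      by_cases h : g⁻¹ ∈ P
      · rw [if_pos h, if_pos (c := g ∈ {g | g⁻¹ ∈ P}) h, conj_single]
      · rw [if_neg h, if_neg (c := g ∈ {g | g⁻¹ ∈ P}) h, conj_zero]
  have h1 : Rm P (dual x) = dual (Rm {g | g⁻¹ ∈ P} x) := by
    ext1 i j
    exact hP' (x j i)
  have h2 : Rm P x + Rm {g | g⁻¹ ∈ P} x = Dm δ x := by
    classical
    induction x using indM with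
    | h0 => simp
    | hadd x y hx hy =>
      have hP1 : Rm P (dual x) = dual (Rm {g | g⁻¹ ∈ P} x) := by ext1 i j; exact hP' (x j i)
      have hP2 : Rm P (dual y) = dual (Rm {g | g⁻¹ ∈ P} y) := by ext1 i j; exact hP' (y j i)
      rw [map_add, map_add, map_add, ← hx hP1, ← hy hP2]; abel
    | hs i j g r =>
      rw [Dm_eq, Rm_single, Rm_single, Rm_single]
      by_cases hg : g ∈ odd δ
      · by_cases hp : g ∈ P
        · have hp' : g⁻¹ ∉ P := (hP.split g hg).mp hp
          rw [if_pos hp, if_neg (c := g ∈ {g | g⁻¹ ∈ P}) hp', if_pos hg, add_zero]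
        · have hp' : g⁻¹ ∈ P := by
            by_contra h'; exact hp ((hP.split g hg).mpr h')
          rw [if_neg hp, if_pos (c := g ∈ {g | g⁻¹ ∈ P}) hp', if_pos hg, zero_add]
      · have hp : g ∉ P := fun h' => hg (hP.odd g h')
        have hp' : g⁻¹ ∉ P := fun h' => hg ((odd_inv δ g).mpr (hP.odd _ h'))
        rw [if_neg hp, if_neg (c := g ∈ {g | g⁻¹ ∈ P}) hp', if_neg hg, add_zero]
  unfold Qm
  rw [h1, ← dual_mul, tr_dual, tr_mul_comm]
  have h3 := tr_D_self δ hG x
  rw [← h2, Matrix.add_mul, Matrix.trace_add, map_add] at h3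
  exact (CharTwo.add_eq_zero.mp h3).symm

/-- The multiplication rule modulo `z ^ 2 + z`. -/
lemma Qm_M (hG : ∀ g : G, g * g = 1 → g = 1) {P : Set G} (hP : Half δ P)
    (u v : Matrix α α (MonoidAlgebra K G)) :
    ∃ z : K, Qm P (u * v) + Qm P (v * u) + (c1 (v * u * v * Dm δ u).trace
      + c1 (v * Dm δ u).trace) = z * z + z := by
  classical
  have h1P : (1 : G) ∉ P := fun h => hP.odd 1 h (map_one δ)
  have h2 : (2 : K) = 0 := CharP.cast_eq_zero K 2
  induction u using indM with
  | h0 => exact ⟨0, by simp [Qm]⟩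
  | hadd u₁ u₂ hu₁ hu₂ =>
    obtain ⟨z₁, h₁⟩ := hu₁
    obtain ⟨z₂, h₂⟩ := hu₂
    refine ⟨z₁ + z₂, ?_⟩
    -- the cross terms cancel
    have hc : c1 (Dm δ (u₁ * v) * (u₂ * v)).trace + c1 (Dm δ (v * u₁) * (v * u₂)).trace
        + c1 (v * u₁ * v * Dm δ u₂).trace + c1 (v * u₂ * v * Dm δ u₁).trace = 0 := by
      have h := tr_Dm δ (u₁ * v * u₂ * v)
      rw [Dm_mul, Dm_mul, Dm_mul] at h
      simp only [Matrix.add_mul, Matrix.trace_add, map_add] at h
      have e1 : c1 (Dm δ (u₁ * v) * (u₂ * v)).trace
          = c1 (Dm δ u₁ * v * u₂ * v).trace + c1 (u₁ * Dm δ v * u₂ * v).trace := by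
        rw [Dm_mul, Matrix.add_mul, Matrix.trace_add, map_add, tr_assoc, tr_assoc]
      have e2 : c1 (Dm δ (v * u₁) * (v * u₂)).trace
          = c1 (u₁ * v * u₂ * Dm δ v).trace + c1 (Dm δ u₁ * v * u₂ * v).trace := by
        rw [Dm_mul, Matrix.add_mul, Matrix.trace_add, map_add, tr_assoc, tr_assoc,
          tr_rot (Dm δ v), tr_rot v]
      have e3 : c1 (v * u₁ * v * Dm δ u₂).trace = c1 (u₁ * v * Dm δ u₂ * v).trace :=
        tr_rot _ _ _ _
      have e4 : c1 (v * u₂ * v * Dm δ u₁).trace = c1 (Dm δ u₁ * v * u₂ * v).trace :=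
        (tr_rot _ _ _ _).symm
      rw [e1, e2, e3, e4]
      linear_combination h + c1 (Dm δ u₁ * v * u₂ * v).trace * h2
    simp only [Matrix.add_mul, Matrix.mul_add, map_add, Matrix.trace_add, Qm_add δ hP]
    linear_combination h₁ + h₂ + hc - (z₁ * z₂) * h2
  | hs i j g r =>
    induction v using indM with
    | h0 => exact ⟨0, by simp [Qm]⟩
    | hadd v₁ v₂ hv₁ hv₂ =>
      obtain ⟨z₁, h₁⟩ := hv₁
      obtain ⟨z₂, h₂⟩ := hv₂
      refine ⟨z₁ + z₂, ?_⟩
      generalize Matrix.single i j (MonoidAlgebra.single g r) = u at *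
      have e1 : c1 (Dm δ (u * v₁) * (u * v₂)).trace
          = c1 (v₁ * u * v₂ * Dm δ u).trace + c1 (u * v₂ * u * Dm δ v₁).trace := by
        rw [Dm_mul, Matrix.add_mul, Matrix.trace_add, map_add, tr_assoc, tr_assoc,
          tr_rot (Dm δ u), ← tr_rot (Dm δ v₁), tr_rot u (Dm δ v₁)]
      have e2 : c1 (Dm δ (v₁ * u) * (v₂ * u)).trace
          = c1 (u * v₂ * u * Dm δ v₁).trace + c1 (v₂ * u * v₁ * Dm δ u).trace := by
        rw [Dm_mul, Matrix.add_mul, Matrix.trace_add, map_add, tr_assoc, tr_assoc,
          tr_rot (Dm δ v₁), tr_rot v₁, tr_rot (Dm δ u)]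
      simp only [Matrix.add_mul, Matrix.mul_add, map_add, Matrix.trace_add, Qm_add δ hP, e1, e2]
      linear_combination h₁ + h₂ - (z₁ * z₂) * h2
        + (c1 (v₁ * u * v₂ * Dm δ u).trace + c1 (u * v₂ * u * Dm δ v₁).trace
          + c1 (v₂ * u * v₁ * Dm δ u).trace) * h2
    | hs k l h s =>
      have q : ∀ (a b : α) (m : G) (t : K),
          Qm P (Matrix.single a b (MonoidAlgebra.single m t)) = 0 :=
        fun a b m t => tr_R_self_single hG P h1P a b m t
      have q1 : Qm P (Matrix.single i j (MonoidAlgebra.single g r)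
          * Matrix.single k l (MonoidAlgebra.single h s)) = 0 := by
        rw [single_mul_single']; split_ifs
        · exact q _ _ _ _
        · simp [Qm]
      have q2 : Qm P (Matrix.single k l (MonoidAlgebra.single h s)
          * Matrix.single i j (MonoidAlgebra.single g r)) = 0 := by
        rw [single_mul_single']; split_ifs
        · exact q _ _ _ _
        · simp [Qm]
      rw [q1, q2, Dm_eq, Rm_single]
      by_cases hg : g ∈ odd δ
      · rw [if_pos hg]
        by_cases hli : l = i
        · subst hli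
          by_cases hjk : j = k
          · subst hjk
            simp only [single_mul_single', if_true, tr_single, c1_single]
            by_cases hgh : h * g = 1
            · refine ⟨s * r, ?_⟩
              have e : h * g * h * g = 1 := by rw [hgh, one_mul, hgh]
              rw [if_pos e, if_pos hgh]; ring
            · refine ⟨0, ?_⟩
              have e : ¬ h * g * h * g = 1 := by
                intro h'
                apply hgh
                apply hG
                rw [← mul_assoc]; exact h'
              rw [if_neg e, if_neg hgh]; ring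
          · refine ⟨0, ?_⟩
            simp only [single_mul_single', if_true, tr_single, if_neg (Ne.symm hjk), if_neg hjk,
              Matrix.zero_mul]
            simp [Matrix.trace_zero]
        · refine ⟨0, ?_⟩
          simp only [single_mul_single', if_neg hli, Matrix.zero_mul]
          simp [Matrix.trace_zero]
      · rw [if_neg hg]
        refine ⟨0, ?_⟩
        simp

end Char2

end Pool.Agent.Lib.MP8a3537.D1
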