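import Mathlib

/-!
Abstract system behind the degree one Arf invariant `e_δ : L_1^h(K[G]) → K/℘K`.
-/

namespace Pool.Agent.Lib.MP8a3537.D1

/-- A ring `B` with an anti-involution `dg`, a derivation `D`, a trace `T` and a quadratic
refinement `Q` (values in a group `V` of exponent two). -/
structure Sys (B V : Type*) [Ring B] [AddCommGroup V] where
  T : B →+ V
  D : B →+ B
  dg : B →+ B
  Q : B → V
  twoB : ∀ x : B, x + x = 0
  twoV : ∀ x : V, x + x = 0
  T_comm : ∀ x y, T (x * y) = T (y * x)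
  T_dg : ∀ x, T (dg x) = T x
  dg_mul : ∀ x y, dg (x * y) = dg y * dg x
  dg_dg : ∀ x, dg (dg x) = x
  D_mul : ∀ x y, D (x * y) = D x * y + x * D y
  D_dg : ∀ x, D (dg x) = dg (D x)
  T_D : ∀ x, T (D x) = 0
  Q_add : ∀ x y, Q (x + y) = Q x + Q y + T (D x * y)
  Q_dg : ∀ x, Q (dg x) = Q x
  Q_M : ∀ u v, Q (u * v) + Q (v * u) = T (v * u * v * D u) + T (v * D u)
  E : B
  E_dg : E + dg E = 1
  E_sq : E * E = E
  D_E : D E = 0

namespace Sys

variable {B V : Type*} [Ring B] [AddCommGroup V] (S : Sys B V)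

/-- The invariant on the off-diagonal part. -/
def kappa (N : B) : V := S.Q N + S.T (S.E * S.dg N * S.D N)

include S in
lemma eq_of_add {x y : V} (h : x + y = 0) : x = y := by
  have := S.twoV y
  exact add_right_cancel (h.trans this.symm)

include S in
lemma eq_of_addB {x y : B} (h : x + y = 0) : x = y := by
  have := S.twoB y
  exact add_right_cancel (h.trans this.symm)

include S in
lemma negB (x : B) : -x = x := by
  have := S.twoB x
  exact neg_eq_of_add_eq_zero_left this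

include S in
lemma subB (x y : B) : x - y = x + y := by rw [sub_eq_add_neg, S.negB]

lemma Q_zero : S.Q 0 = 0 := by
  have h := S.Q_add 0 0
  simp only [add_zero, map_zero, mul_zero] at h
  have h2 := S.twoV (S.Q 0)
  rw [h2] at h; exact h

lemma T_D_self (x : B) : S.T (S.D x * x) = 0 := by
  have h := S.Q_add x x
  rw [S.twoB, S.Q_zero, S.twoV, zero_add] at h
  exact h.symm

lemma T_D_comm' (x y : B) : S.T (S.D x * y) = S.T (x * S.D y) := by
  have h := S.T_D (x * y)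
  rw [S.D_mul, map_add] at h
  exact S.eq_of_add h

lemma T_D_comm (x y : B) : S.T (S.D x * y) = S.T (S.D y * x) := by
  rw [S.T_D_comm', S.T_comm]

lemma D_one : S.D 1 = 0 := by
  have h := S.D_mul 1 1
  simp only [mul_one, one_mul] at h
  have h2 := S.twoB (S.D 1)
  rw [h2] at h; exact h

lemma dg_one : S.dg 1 = 1 := by
  have h := S.dg_mul (S.dg 1) 1
  rw [mul_one, S.dg_dg, mul_one] at h
  exact h.symm

lemma T_dg' (x y : B) : S.T (S.dg x * y) = S.T (x * S.dg y) := by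
  rw [← S.T_dg, S.dg_mul, S.dg_dg, S.T_comm]

lemma D_inv {p q : B} (hqp : q * p = 1) (hpq : p * q = 1) : S.D q = q * S.D p * q := by
  have h := S.D_mul q p
  rw [hqp, S.D_one] at h
  have h2 : S.D q * p = q * S.D p := S.eq_of_addB h.symm
  calc S.D q = S.D q * (p * q) := by rw [hpq, mul_one]
    _ = S.D q * p * q := by rw [mul_assoc]
    _ = q * S.D p * q := by rw [h2]

/-- conjugation formula -/
lemma Q_conj (x p q : B) (hqp : q * p = 1) (hpq : p * q = 1) :
    S.Q (q * x * p) = S.Q x + S.T ((x * x + x) * (S.D p * q)) := by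
  have hDq : S.D q = q * S.D p * q := S.D_inv hqp hpq
  have hM := S.Q_M (q * x) p
  have e1 : p * (q * x) = x := by rw [← mul_assoc, hpq, one_mul]
  have e2 : S.D (q * x) = q * S.D p * q * x + q * S.D x := by rw [S.D_mul, hDq]
  have e3 : p * S.D (q * x) = S.D p * q * x + S.D x := by
    rw [e2, mul_add]
    congr 1
    · calc p * (q * S.D p * q * x) = (p * q) * S.D p * q * x := by noncomm_ring
        _ = S.D p * q * x := by rw [hpq, one_mul]
    · rw [← mul_assoc, hpq, one_mul]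
  have e4 : S.T (p * (q * x) * p * S.D (q * x)) = S.T (x * x * (S.D p * q)) := by
    have : p * (q * x) * p * S.D (q * x) = x * (S.D p * q) * x + x * S.D x := by
      calc p * (q * x) * p * S.D (q * x) = (p * (q * x)) * (p * S.D (q * x)) := by noncomm_ring
        _ = x * (S.D p * q * x + S.D x) := by rw [e1, e3]
        _ = _ := by noncomm_ring
    rw [this, map_add, S.T_comm x (S.D x), S.T_D_self, add_zero, S.T_comm (x * (S.D p * q)) x,
      ← mul_assoc]
  have e5 : S.T (p * S.D (q * x)) = S.T (x * (S.D p * q)) := by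
    rw [e3, map_add, S.T_D, add_zero, S.T_comm]
  rw [e4, e5, e1] at hM
  have h6 : S.Q (q * x * p) + (S.Q x + S.T ((x * x + x) * (S.D p * q))) = 0 := by
    rw [add_mul, map_add, ← hM, ← add_assoc]
    exact S.twoV _
  exact S.eq_of_add h6

lemma E_dg' : S.dg S.E = 1 + S.E := by
  have h := S.E_dg
  have : S.dg S.E = 1 - S.E := by rw [← h]; abel
  rw [this, S.subB]

lemma D_dgE : S.D (S.dg S.E) = 0 := by rw [S.D_dg, S.D_E, map_zero]

lemma E_mul_dgE : S.E * S.dg S.E = 0 := by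
  rw [S.E_dg', mul_add, mul_one, S.E_sq, S.twoB]

lemma dgE_mul_E : S.dg S.E * S.E = 0 := by
  rw [S.E_dg', add_mul, one_mul, S.E_sq, S.twoB]

lemma kappa_add (X Y : B) :
    S.kappa (X + Y) = S.kappa X + S.kappa Y + S.T (S.D (X + S.dg X) * Y) := by
  unfold kappa
  have e1 : S.T (S.E * S.dg Y * S.D X) = S.T (S.dg S.E * S.dg (S.D X) * Y) := by
    rw [← S.T_dg, S.dg_mul, S.dg_mul, S.dg_dg, S.T_comm, S.T_comm _ Y]
    congr 1
    noncomm_ring
  have e2 : S.T (S.E * S.dg X * S.D Y) = S.T (S.E * S.dg (S.D X) * Y) := by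
    have h := S.T_D (S.E * S.dg X * Y)
    rw [S.D_mul, S.D_mul, S.D_E, zero_mul, zero_add, map_add, S.D_dg] at h
    rw [S.eq_of_add h]
  have e3 : S.T (S.D (X + S.dg X) * Y) = S.T (S.D X * Y) + S.T (S.E * S.dg (S.D X) * Y)
      + S.T (S.dg S.E * S.dg (S.D X) * Y) := by
    rw [add_assoc, ← map_add S.T, ← add_mul, ← add_mul, S.E_dg, one_mul, ← map_add S.T, ← add_mul,
      map_add S.D, S.D_dg]
  rw [S.Q_add, e3, ← e1, ← e2]
  simp only [map_add, mul_add, add_mul]
  abel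

/-- `E^† X E = 0`-type vanishing. -/
lemma T_EdgE (x : B) : S.T (S.E * x * S.dg S.E) = 0 := by
  rw [S.T_comm, ← mul_assoc, S.dgE_mul_E, zero_mul, map_zero]

lemma T_dgEE (x : B) : S.T (S.dg S.E * x * S.E) = 0 := by
  rw [S.T_comm, ← mul_assoc, S.E_mul_dgE, zero_mul, map_zero]

lemma kappa_sym (N : B) (h : S.dg N = N) : S.kappa N = 0 := by
  have hEE : S.E * S.E = S.E := S.E_sq
  have hEF : S.E * S.dg S.E = 0 := S.E_mul_dgE
  have hFE : S.dg S.E * S.E = 0 := S.dgE_mul_E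
  have hDF : S.D (S.dg S.E) = 0 := S.D_dgE
  have hDE : S.D S.E = 0 := S.D_E
  have hdF : S.dg (S.dg S.E) = S.E := S.dg_dg _
  have hEF1 : S.E + S.dg S.E = 1 := S.E_dg
  have TEF := S.T_EdgE
  have TFE := S.T_dgEE
  unfold kappa
  rw [h]
  obtain ⟨F, hF⟩ : ∃ F, S.dg S.E = F := ⟨_, rfl⟩
  rw [hF] at hEF hFE hDF hdF hEF1 TEF TFE
  obtain ⟨E, hE⟩ : ∃ E, S.E = E := ⟨_, rfl⟩
  rw [hE] at hEE hEF hFE hDE hdF hEF1 TEF TFE hF ⊢
  have hN : N = E * N * E + F * N * F + (E * N * F + F * N * E) := by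
    calc N = (E + F) * N * (E + F) := by rw [hEF1, one_mul, mul_one]
      _ = _ := by noncomm_ring
  have DA : S.D (E * N * E) = E * S.D N * E := by
    rw [S.D_mul, S.D_mul, hDE]; noncomm_ring
  have DA' : S.D (F * N * F) = F * S.D N * F := by
    rw [S.D_mul, S.D_mul, hDF]; noncomm_ring
  have DB : S.D (E * N * F) = E * S.D N * F := by
    rw [S.D_mul, S.D_mul, hDE, hDF]; noncomm_ring
  have DC : S.D (F * N * E) = F * S.D N * E := by
    rw [S.D_mul, S.D_mul, hDE, hDF]; noncomm_ring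
  have dA : S.dg (E * N * E) = F * N * F := by
    rw [S.dg_mul, S.dg_mul, h, hF, ← mul_assoc]
  -- Q of off diagonal blocks
  have QB : S.Q (E * N * F) = 0 := by
    have hM := S.Q_M E (N * F)
    have e1 : N * F * E = 0 := by rw [mul_assoc, hFE, mul_zero]
    rw [e1, S.Q_zero, hDE] at hM
    simp only [mul_zero, map_zero, add_zero] at hM
    rw [mul_assoc]; exact hM
  have QC : S.Q (F * N * E) = 0 := by
    have hM := S.Q_M F (N * E)
    have e1 : N * E * F = 0 := by rw [mul_assoc, hEF, mul_zero]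
    rw [e1, S.Q_zero, hDF] at hM
    simp only [mul_zero, map_zero, add_zero] at hM
    rw [mul_assoc]; exact hM
  have z1 : S.T (S.D (E * N * E) * (F * N * F)) = 0 := by
    rw [DA]
    have : E * S.D N * E * (F * N * F) = E * S.D N * (E * F) * (N * F) := by noncomm_ring
    rw [this, hEF, mul_zero, zero_mul, map_zero]
  have QAA : S.Q (E * N * E + F * N * F) = 0 := by
    rw [S.Q_add, z1, add_zero, ← dA, S.Q_dg]
    exact S.twoV _
  have z2 : S.T (S.D (E * N * E + F * N * F) * (E * N * F + F * N * E)) = 0 := by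
    rw [map_add S.D, DA, DA']
    have : (E * S.D N * E + F * S.D N * F) * (E * N * F + F * N * E)
        = E * (S.D N * (E * E) * N) * F + E * S.D N * (E * F) * N * E
          + F * S.D N * (F * E) * N * F + F * (S.D N * (F * F) * N) * E := by noncomm_ring
    rw [this, hEF, hFE]
    simp only [map_add, mul_zero, zero_mul, map_zero, add_zero]
    rw [TEF, TFE, add_zero]
  have hQ : S.Q N = S.T (S.D (E * N * F) * (F * N * E)) := by
    conv_lhs => rw [hN]
    rw [S.Q_add, QAA, S.Q_add, QB, QC, z2]; simp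
  have hFF : F * F = F := by
    calc F * F = F * (E + F) := by rw [mul_add, hFE, zero_add]
      _ = F := by rw [hEF1, mul_one]
  have hR : S.T (E * N * S.D N) = S.T (S.D (E * N * F) * (F * N * E)) := by
    have hE1 : E * N * S.D N = E * N * E * S.D N + E * N * F * S.D N := by
      rw [← add_mul, ← mul_add, hEF1, mul_one]
    have c1 : S.T (E * N * E * S.D N) = S.T (S.D (E * N * E) * (E * N * E)) := by
      have e : E * N * E * (E * S.D N * E) = E * N * (E * E) * S.D N * E := by noncomm_ring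
      have e2 : E * (E * N * E * S.D N) = (E * E) * N * E * S.D N := by noncomm_ring
      rw [DA, S.T_comm (E * S.D N * E), e, hEE, S.T_comm _ E, e2, hEE]
    have c2 : S.T (E * N * F * S.D N) = S.T (E * N * F * S.D (F * N * E)) := by
      have e : E * N * F * (F * S.D N * E) = E * N * (F * F) * S.D N * E := by noncomm_ring
      have e2 : E * (E * N * F * S.D N) = (E * E) * N * F * S.D N := by noncomm_ring
      rw [DC, e, hFF, S.T_comm _ E, e2, hEE]
    rw [hE1, map_add, c1, S.T_D_self, zero_add, c2, ← S.T_D_comm']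
  rw [hQ, hR]
  exact S.twoV _

lemma T_D_sym (S1 N : B) (h : S.dg S1 = S1) : S.T (S.D (N + S.dg N) * S1) = 0 := by
  rw [map_add, add_mul, map_add]
  have : S.T (S.D (S.dg N) * S1) = S.T (S.D N * S1) := by
    rw [← S.T_dg, S.dg_mul, h, S.D_dg, S.dg_dg, S.T_comm]
  rw [this]; exact S.twoV _

lemma kappa_indep (N N' : B) (h : N + S.dg N = N' + S.dg N') : S.kappa N = S.kappa N' := by
  have hs : S.dg (N + N') = N + N' := by
    rw [map_add]
    apply S.eq_of_addB
    have : S.dg N + S.dg N' + (N + N') = (N + S.dg N) + (N' + S.dg N') := by abel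
    rw [this, h]; exact S.twoB _
  have e : N' = N + (N + N') := by rw [← add_assoc, S.twoB, zero_add]
  rw [e, S.kappa_add, S.kappa_sym _ hs, S.T_D_sym _ _ hs, add_zero, add_zero]

lemma dg_inv {p q : B} (hqp : q * p = 1) (hpq : p * q = 1) (hd : S.dg p = q) : S.dg q = p := by
  rw [← hd, S.dg_dg]

/-- `w = D(U) U⁻¹` is self adjoint. -/
lemma w_sym {p q : B} (hpq : p * q = 1) (hd : S.dg p = q) :
    S.dg (S.D p * q) = S.D p * q := by
  have hq : S.dg q = p := by rw [← hd, S.dg_dg]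
  rw [S.dg_mul, hq, ← S.D_dg, hd]
  have h := S.D_mul p q
  rw [hpq, S.D_one] at h
  exact (S.eq_of_addB h.symm).symm

/-- `R(U⁻¹NU) = R(N) + T((N†N+NN†)v)`. -/
lemma R_conj (p q N M v : B) (hqp : q * p = 1) (hpq : p * q = 1) (hd : S.dg p = q)
    (hE : p * S.E * q = S.E + M + S.dg M)
    (hv : v = S.D p * q * (p * S.E * q) + S.D M) (hvv : v + S.dg v = S.D p * q) :
    S.T (S.E * S.dg (q * N * p) * S.D (q * N * p))
      = S.T (S.E * S.dg N * S.D N) + S.T ((S.dg N * N + N * S.dg N) * v) := by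
  have hq : S.dg q = p := by rw [← hd, S.dg_dg]
  have hDq : S.D q = q * S.D p * q := S.D_inv hqp hpq
  have hdN : S.dg (q * N * p) = q * S.dg N * p := by
    rw [S.dg_mul, S.dg_mul, hd, hq, mul_assoc]
  obtain ⟨w, hw⟩ : ∃ w, S.D p * q = w := ⟨_, rfl⟩
  have hDp : S.D p = w * p := by rw [← hw, mul_assoc, hqp, mul_one]
  have hDc : S.D (q * N * p) = q * (w * N + S.D N + N * w) * p := by
    rw [S.D_mul, S.D_mul, hDq, hDp]
    have : q * (w * p) * q * N = q * w * (p * q) * N := by noncomm_ring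
    rw [this, hpq]; noncomm_ring
  obtain ⟨E2, hE2⟩ : ∃ E2, p * S.E * q = E2 := ⟨_, rfl⟩
  rw [hw] at hv hvv
  rw [hE2] at hv hE
  have s1 : S.T (S.E * S.dg (q * N * p) * S.D (q * N * p))
      = S.T (E2 * S.dg N * (w * N + S.D N + N * w)) := by
    rw [hdN, hDc]
    have : S.E * (q * S.dg N * p) * (q * (w * N + S.D N + N * w) * p)
        = S.E * q * S.dg N * (p * q) * (w * N + S.D N + N * w) * p := by noncomm_ring
    rw [this, hpq, mul_one, S.T_comm _ p, ← hE2]
    congr 1; noncomm_ring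
  have s2 : S.T (E2 * S.dg N * S.D N)
      = S.T (S.E * S.dg N * S.D N) + S.T (S.D M * (S.dg N * N)) := by
    rw [hE]
    have e : (S.E + M + S.dg M) * S.dg N * S.D N
        = S.E * S.dg N * S.D N + (M * S.dg N * S.D N + S.dg M * S.dg N * S.D N) := by noncomm_ring
    rw [e, map_add, map_add]
    congr 1
    have e3 : S.T (S.dg M * S.dg N * S.D N) = S.T (M * (S.D (S.dg N) * N)) := by
      rw [← S.T_dg, S.dg_mul, S.dg_mul, S.dg_dg, S.dg_dg, S.D_dg, S.T_comm, mul_assoc,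
        S.T_comm, ← mul_assoc, ← S.T_comm, ← mul_assoc]
    rw [e3, ← map_add, S.T_D_comm', S.D_mul]
    congr 1; noncomm_ring
  have hE2s : E2 + S.dg E2 = 1 := by
    rw [← hE2, S.dg_mul, S.dg_mul, hd, hq, ← mul_assoc, ← add_mul, ← mul_add, S.E_dg, mul_one, hpq]
  have s3 : S.T (E2 * S.dg N * (w * N)) = S.T (N * S.dg N * v) := by
    have a1 : S.T (E2 * S.dg N * (w * N)) = S.T (N * E2 * S.dg N * w) := by
      rw [← mul_assoc, S.T_comm, ← mul_assoc, ← mul_assoc]
    have a2 : S.T (N * E2 * S.dg N * S.dg v) = S.T (N * S.dg E2 * S.dg N * v) := by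
      rw [← S.T_dg, S.dg_mul, S.dg_mul, S.dg_mul, S.dg_dg, S.dg_dg, S.T_comm]
      congr 1; noncomm_ring
    rw [a1, ← hvv, mul_add, map_add, a2, ← map_add, ← add_mul, ← add_mul, ← mul_add, hE2s, mul_one]
  have s4 : S.T (E2 * S.dg N * (N * w)) + S.T (S.D M * (S.dg N * N)) = S.T (S.dg N * N * v) := by
    have a1 : S.T (E2 * S.dg N * (N * w)) = S.T (w * E2 * (S.dg N * N)) := by
      rw [← mul_assoc, S.T_comm]
      congr 1; noncomm_ring
    rw [a1, ← map_add, ← add_mul, ← hv, S.T_comm]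
  rw [s1, mul_add, mul_add, map_add, map_add, s2, s3]
  have : S.T (N * S.dg N * v) + (S.T (S.E * S.dg N * S.D N) + S.T (S.D M * (S.dg N * N)))
      + S.T (E2 * S.dg N * (N * w))
      = S.T (S.E * S.dg N * S.D N) + ((S.T (E2 * S.dg N * (N * w)) + S.T (S.D M * (S.dg N * N)))
        + S.T (N * S.dg N * v)) := by abel
  rw [this, s4, ← map_add, ← add_mul]

/-- multiplicativity of the invariant -/
theorem kappa_mul (p1 q1 p2 q2 N1 N2 : B)
    (hqp1 : q1 * p1 = 1) (hpq1 : p1 * q1 = 1) (hd1 : S.dg p1 = q1)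
    (hqp2 : q2 * p2 = 1) (hpq2 : p2 * q2 = 1) (hd2 : S.dg p2 = q2)
    (hE1 : q1 * S.E * p1 = S.E + N1 + S.dg N1)
    (hE2 : q2 * S.E * p2 = S.E + N2 + S.dg N2) :
    S.kappa (N2 + q2 * N1 * p2) = S.kappa N1 + S.kappa N2 := by
  have hq2 : S.dg q2 = p2 := by rw [← hd2, S.dg_dg]
  obtain ⟨w, hw⟩ : ∃ w, S.D p2 * q2 = w := ⟨_, rfl⟩
  have hDp : S.D p2 = w * p2 := by rw [← hw, mul_assoc, hqp2, mul_one]
  have hDq : S.D q2 = q2 * w := by rw [S.D_inv hqp2 hpq2, ← hw]; noncomm_ring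
  have hws : S.dg w = w := by rw [← hw]; exact S.w_sym hpq2 hd2
  -- Y
  obtain ⟨Y, hY⟩ : ∃ Y, p2 * N2 * q2 = Y := ⟨_, rfl⟩
  have hYd : S.dg Y = p2 * S.dg N2 * q2 := by
    rw [← hY, S.dg_mul, S.dg_mul, hd2, hq2, mul_assoc]
  have hEE : p2 * S.E * q2 = S.E + Y + S.dg Y := by
    have h1 : p2 * (q2 * S.E * p2) * q2 = p2 * (S.E + N2 + S.dg N2) * q2 := by rw [hE2]
    have h2 : p2 * (q2 * S.E * p2) * q2 = (p2 * q2) * S.E * (p2 * q2) := by noncomm_ring
    rw [h2, hpq2, one_mul, mul_one] at h1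
    have h3 : p2 * (S.E + N2 + S.dg N2) * q2 = p2 * S.E * q2 + Y + S.dg Y := by
      rw [hYd, ← hY]; noncomm_ring
    rw [h3] at h1
    have h4 : p2 * S.E * q2 + (Y + S.dg Y) = S.E := by rw [← add_assoc]; exact h1.symm
    have h5 : p2 * S.E * q2 = (p2 * S.E * q2 + (Y + S.dg Y)) + (Y + S.dg Y) := by
      rw [add_assoc (p2 * S.E * q2), S.twoB, add_zero]
    rw [h5, h4, ← add_assoc]
  have hDE2 : S.D (p2 * S.E * q2) = w * (p2 * S.E * q2) + (p2 * S.E * q2) * w := by
    rw [S.D_mul, S.D_mul, S.D_E, hDp, hDq]; noncomm_ring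
  obtain ⟨v, hv⟩ : ∃ v, v = w * (p2 * S.E * q2) + S.D Y := ⟨_, rfl⟩
  have hE2s : p2 * S.E * q2 + S.dg (p2 * S.E * q2) = 1 := by
    rw [S.dg_mul, S.dg_mul, hd2, hq2, ← mul_assoc, ← add_mul, ← mul_add, S.E_dg, mul_one, hpq2]
  have hDY : S.D Y + S.dg (S.D Y) = w * (p2 * S.E * q2) + (p2 * S.E * q2) * w := by
    rw [← hDE2, hEE, map_add, map_add, S.D_E, zero_add, S.D_dg]
  have hvv : v + S.dg v = w := by
    rw [hv, map_add, S.dg_mul, hws]
    have : S.dg (p2 * S.E * q2) = 1 + p2 * S.E * q2 := by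
      have h := hE2s
      have h2 : S.dg (p2 * S.E * q2) = 1 - p2 * S.E * q2 := by rw [← h]; abel
      rw [h2, S.subB]
    rw [this]
    have e : w * (p2 * S.E * q2) + S.D Y + ((1 + p2 * S.E * q2) * w + S.dg (S.D Y))
        = w * (p2 * S.E * q2) + (p2 * S.E * q2) * w + w + (S.D Y + S.dg (S.D Y)) := by
      noncomm_ring
    rw [e, hDY]
    have e2 : w * (p2 * S.E * q2) + (p2 * S.E * q2) * w + w
        + (w * (p2 * S.E * q2) + (p2 * S.E * q2) * w)
        = ((w * (p2 * S.E * q2) + (p2 * S.E * q2) * w)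
          + (w * (p2 * S.E * q2) + (p2 * S.E * q2) * w)) + w := by abel
    rw [e2, S.twoB, zero_add]
  -- pieces
  have hQ := S.Q_conj N1 p2 q2 hqp2 hpq2
  have hR := S.R_conj p2 q2 N1 Y v hqp2 hpq2 hd2 hEE (by rw [hw]; exact hv) (by rw [hw]; exact hvv)
  rw [hw] at hQ
  have hk : S.kappa (q2 * N1 * p2) = S.kappa N1 + (S.T ((N1 * N1 + N1) * w)
      + S.T ((S.dg N1 * N1 + N1 * S.dg N1) * v)) := by
    unfold kappa
    rw [hQ, hR]; abel
  -- cross term
  have hX : S.T (S.D (N2 + S.dg N2) * (q2 * N1 * p2)) = S.T ((w * S.E + S.E * w) * N1) := by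
    have h1 : N2 + S.dg N2 = q2 * S.E * p2 + S.E := by
      rw [hE2]
      have : S.E + N2 + S.dg N2 + S.E = (S.E + S.E) + (N2 + S.dg N2) := by abel
      rw [this, S.twoB, zero_add]
    rw [h1, map_add, S.D_E, add_zero, S.D_mul, S.D_mul, S.D_E, hDp, hDq]
    have h2 : ((q2 * w * S.E + q2 * 0) * p2 + q2 * S.E * (w * p2)) * (q2 * N1 * p2)
        = q2 * (w * S.E + S.E * w) * (p2 * q2) * N1 * p2 := by noncomm_ring
    rw [h2, hpq2, mul_one, S.T_comm]
    have h3 : p2 * (q2 * (w * S.E + S.E * w) * N1) = (p2 * q2) * ((w * S.E + S.E * w) * N1) := by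
      noncomm_ring
    rw [h3, hpq2, one_mul]
  -- relation
  have hZ : (N1 + S.dg N1) * (N1 + S.dg N1) + (N1 + S.dg N1)
      + ((N1 + S.dg N1) * S.E + S.E * (N1 + S.dg N1)) = 0 := by
    have h1 : (q1 * S.E * p1) * (q1 * S.E * p1) = q1 * S.E * p1 := by
      have : (q1 * S.E * p1) * (q1 * S.E * p1) = q1 * S.E * (p1 * q1) * S.E * p1 := by
        noncomm_ring
      rw [this, hpq1, mul_one, mul_assoc q1, S.E_sq]
    rw [hE1, add_assoc] at h1
    have h2 : (S.E + (N1 + S.dg N1)) * (S.E + (N1 + S.dg N1))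
        = S.E * S.E + ((N1 + S.dg N1) * (N1 + S.dg N1)
          + ((N1 + S.dg N1) * S.E + S.E * (N1 + S.dg N1))) := by noncomm_ring
    rw [h2, S.E_sq] at h1
    have h3 := add_left_cancel h1
    have h4 : (N1 + S.dg N1) * (N1 + S.dg N1) + (N1 + S.dg N1)
      + ((N1 + S.dg N1) * S.E + S.E * (N1 + S.dg N1))
      = ((N1 + S.dg N1) * (N1 + S.dg N1) + ((N1 + S.dg N1) * S.E + S.E * (N1 + S.dg N1)))
        + (N1 + S.dg N1) := by abel
    rw [h4, h3]; exact S.twoB _
  have hfin : S.T ((N1 * N1 + N1) * w) + S.T ((S.dg N1 * N1 + N1 * S.dg N1) * v)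
      + S.T ((w * S.E + S.E * w) * N1) = 0 := by
    have h0 : S.T (((N1 + S.dg N1) * (N1 + S.dg N1) + (N1 + S.dg N1)
      + ((N1 + S.dg N1) * S.E + S.E * (N1 + S.dg N1))) * v) = 0 := by
      rw [hZ, zero_mul, map_zero]
    have b1 : S.T (S.dg N1 * S.dg N1 * v) = S.T (N1 * N1 * S.dg v) := by
      rw [← S.T_dg, S.dg_mul, S.dg_mul, S.dg_dg, S.T_comm]
    have b2 : S.T (S.dg N1 * v) = S.T (N1 * S.dg v) := S.T_dg' N1 v
    have b3 : S.T (S.dg N1 * S.E * v) = S.T (N1 * S.dg v) + S.T (S.E * N1 * S.dg v) := by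
      rw [← S.T_dg, S.dg_mul, S.dg_mul, S.dg_dg, S.E_dg', S.T_comm, add_mul, add_mul, one_mul,
        map_add]
    have b4 : S.T (S.E * S.dg N1 * v) = S.T (N1 * S.dg v) + S.T (N1 * S.E * S.dg v) := by
      rw [← S.T_dg, S.dg_mul, S.dg_mul, S.dg_dg, S.E_dg', S.T_comm, mul_add, add_mul, mul_one,
        map_add]
    have b5 : S.T ((w * S.E + S.E * w) * N1) = S.T (S.E * N1 * w) + S.T (N1 * S.E * w) := by
      rw [add_mul, map_add, mul_assoc, S.T_comm w, S.T_comm (S.E * w), ← mul_assoc]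
    have e1 : ((N1 + S.dg N1) * (N1 + S.dg N1) + (N1 + S.dg N1)
      + ((N1 + S.dg N1) * S.E + S.E * (N1 + S.dg N1))) * v
      = N1 * N1 * v + S.dg N1 * S.dg N1 * v + (S.dg N1 * N1 + N1 * S.dg N1) * v
        + N1 * v + S.dg N1 * v + N1 * S.E * v + S.dg N1 * S.E * v + S.E * N1 * v
        + S.E * S.dg N1 * v := by noncomm_ring
    rw [e1] at h0
    simp only [map_add] at h0
    rw [b1, b2, b3, b4] at h0
    rw [b5, ← hvv, add_mul (N1 * N1)]
    simp only [map_add, mul_add]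
    have tw := S.twoV (S.T (N1 * S.dg v))
    have e2 : ∀ a b c d e f g h i j : V, j + j = 0 →
        a + b + (c) + d + j + e + (j + f) + g + (j + h) = 0 →
        a + b + (d + j) + c + (g + f + (e + h)) = 0 := by
      intro a b c d e f g h i j hj hs
      calc a + b + (d + j) + c + (g + f + (e + h))
          = a + b + c + d + j + e + (j + f) + g + (j + h) - (j + j) := by abel
        _ = 0 := by rw [hs, hj, sub_zero]
    exact e2 _ _ _ _ _ _ _ _ 0 _ tw h0
  rw [S.kappa_add, hk, hX]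
  have : S.kappa N2 + (S.kappa N1 + (S.T ((N1 * N1 + N1) * w)
      + S.T ((S.dg N1 * N1 + N1 * S.dg N1) * v))) + S.T ((w * S.E + S.E * w) * N1)
      = S.kappa N1 + S.kappa N2 + (S.T ((N1 * N1 + N1) * w)
      + S.T ((S.dg N1 * N1 + N1 * S.dg N1) * v) + S.T ((w * S.E + S.E * w) * N1)) := by abel
  rw [this, hfin, add_zero]

end Sys

end Pool.Agent.Lib.MP8a3537.D1
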