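import Mathlib

/-!
# Detecting elements of `M ⊗ V` for a group `V` of exponent two
-/

namespace Pool.Agent.Lib.MP8a3537.D1

open TensorProduct

lemma mem_two_of_dual {M : Type*} [AddCommGroup M] (m : M) (h : ∀ δ : M →+ ZMod 2, δ m = 0) :
    ∃ n : M, n + n = m := by
  classical
  let D : AddSubgroup M := (AddMonoidHom.id M + AddMonoidHom.id M).range
  have h2 : ∀ x : M ⧸ D, 2 • x = 0 := by
    intro x
    obtain ⟨y, rfl⟩ := QuotientAddGroup.mk'_surjective D x
    rw [← map_nsmul]
    refine (QuotientAddGroup.eq_zero_iff _).mpr ⟨y, ?_⟩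
    simp [two_nsmul]
  let _ : Module (ZMod 2) (M ⧸ D) := AddCommGroup.zmodModule h2
  have h3 : (QuotientAddGroup.mk' D m : M ⧸ D) = 0 := by
    rw [← Module.forall_dual_apply_eq_zero_iff (ZMod 2)]
    intro f
    exact h (f.toAddMonoidHom.comp (QuotientAddGroup.mk' D))
  obtain ⟨n, hn⟩ := (QuotientAddGroup.eq_zero_iff _).mp h3
  exact ⟨n, by simpa using hn⟩

lemma zmod2_smul {V : Type*} [AddCommGroup V] [Module (ZMod 2) V] (c : ZMod 2) (v : V) :
    c • v = if c = 0 then 0 else v := by
  by_cases h : c = 0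
  · rw [h, zero_smul, if_pos rfl]
  · have : c = 1 := by revert c; decide
    rw [this, one_smul, if_neg one_ne_zero]

theorem tensor_zero {M V : Type*} [AddCommGroup M] [AddCommGroup V] (hV : ∀ v : V, v + v = 0)
    {r : ℕ} (m : Fin r → M) (v : Fin r → V)
    (H : ∀ δ : M →+ ZMod 2, ∑ i, (if δ (m i) = 0 then 0 else v i) = 0) :
    ∑ i, m i ⊗ₜ[ℤ] v i = 0 := by
  classical
  let _ : Module (ZMod 2) V := AddCommGroup.zmodModule (n := 2) (by
    intro x; rw [two_nsmul]; exact hV x)
  let b := Module.Basis.ofVectorSpace (ZMod 2) V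
  let J := Finset.univ.biUnion fun i : Fin r => (b.repr (v i)).support
  have hv : ∀ i, v i = ∑ j ∈ J, (if b.repr (v i) j = 0 then 0 else b j) := by
    intro i
    conv_lhs => rw [← b.linearCombination_repr (v i)]
    rw [Finsupp.linearCombination_apply, Finsupp.sum]
    have hsub : (b.repr (v i)).support ⊆ J := Finset.subset_biUnion_of_mem
      (fun i : Fin r => (b.repr (v i)).support) (Finset.mem_univ i)
    rw [Finset.sum_subset hsub (fun j _ hj => by
      rw [Finsupp.notMem_support_iff.mp hj, zero_smul])]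
    exact Finset.sum_congr rfl (fun j _ => zmod2_smul _ _)
  have h1 : ∑ i, m i ⊗ₜ[ℤ] v i
      = ∑ j ∈ J, (∑ i, if b.repr (v i) j = 0 then 0 else m i) ⊗ₜ[ℤ] (b j) := by
    calc ∑ i, m i ⊗ₜ[ℤ] v i
        = ∑ i, ∑ j ∈ J, m i ⊗ₜ[ℤ] (if b.repr (v i) j = 0 then 0 else b j) := by
          refine Finset.sum_congr rfl (fun i _ => ?_)
          nth_rw 1 [hv i]
          rw [TensorProduct.tmul_sum]
      _ = ∑ j ∈ J, ∑ i, m i ⊗ₜ[ℤ] (if b.repr (v i) j = 0 then 0 else b j) := Finset.sum_comm
      _ = _ := by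
          refine Finset.sum_congr rfl (fun j _ => ?_)
          rw [TensorProduct.sum_tmul]
          refine Finset.sum_congr rfl (fun i _ => ?_)
          split_ifs <;> simp
  rw [h1]
  refine Finset.sum_eq_zero (fun j _ => ?_)
  have h2 : ∀ δ : M →+ ZMod 2, δ (∑ i, if b.repr (v i) j = 0 then 0 else m i) = 0 := by
    intro δ
    have h3 := congrArg (fun x => b.repr x j) (H δ)
    simp only [map_sum, map_zero, Finsupp.coe_finsetSum, Finset.sum_apply, Finsupp.coe_zero,
      Pi.zero_apply] at h3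
    rw [map_sum]
    refine Eq.trans ?_ h3
    refine Finset.sum_congr rfl (fun i _ => ?_)
    by_cases hc : b.repr (v i) j = 0
    · rw [if_pos hc, map_zero]
      by_cases hd : δ (m i) = 0
      · rw [if_pos hd, map_zero]; rfl
      · rw [if_neg hd, hc]
    · have hc1 : b.repr (v i) j = 1 := by
        revert hc; generalize b.repr (v i) j = c; revert c; decide
      rw [if_neg hc]
      by_cases hd : δ (m i) = 0
      · rw [if_pos hd, hd, map_zero]; rfl
      · have hd1 : δ (m i) = 1 := by
          revert hd; generalize δ (m i) = c; revert c; decide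
        rw [if_neg hd, hd1, hc1]
  obtain ⟨n, hn⟩ := mem_two_of_dual _ h2
  rw [← hn, TensorProduct.add_tmul, ← TensorProduct.tmul_add, hV, TensorProduct.tmul_zero]

end Pool.Agent.Lib.MP8a3537.D1
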